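import Pool.Agent.Helper48.FB.Defs
import Pool.Agent.Helper48.WR.FinCount
import Pool.Agent.Helper53.WR.Tower

set_option autoImplicit false
set_option linter.unusedVariables false

/-!
# Project FB: statements of the pieces
-/

namespace Pool.Agent.Helper48.FB.St

open Finset Filter
open Pool.Agent.Helper3.Thin (dig und off Lab GoodSet)
open Pool.Agent.Helper53.WR
open Pool.Agent.Helper48.FB

section random

/-- FB-A1 (method of conditional expectations for functions affine in each coordinate). -/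
theorem exists_zero_one (X : Finset ℕ) (p : ℕ → ℝ) (hp0 : ∀ x, 0 ≤ p x) (hp1 : ∀ x, p x ≤ 1)
    (Φ : (ℕ → ℝ) → ℝ)
    (hΦ : ∀ x ∈ X, ∀ ω : ℕ → ℝ, Φ (Function.update ω x (p x)) =
      (1 - p x) * Φ (Function.update ω x 0) + p x * Φ (Function.update ω x 1)) :
    ∃ R ⊆ X, (∀ x ∈ X, p x = 1 → x ∈ R) ∧
      Φ (fun x => if x ∈ X then (if x ∈ R then 1 else 0) else p x) ≤ Φ p := by
  sorry

/-- FB-A2 (random subset: coverage, representations, a family of sets). Uses A1. -/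
theorem filler_select (X : Finset ℕ) (p : ℕ → ℝ) (hp0 : ∀ x, 0 ≤ p x) (hp1 : ∀ x, p x ≤ 1)
    (hpX : ∀ x, x ∉ X → p x = 0) (Cov Rep : Finset ℕ) (s : ℕ) {J : Type} (fam : Finset J)
    (Y : J → Finset ℕ) (A : J → ℝ) (y : J → ℕ) (hA : ∀ j ∈ fam, 1 ≤ A j)
    (hsum : ∑ n ∈ Cov, Real.exp (-(∑ x ∈ (range n).filter (fun x => x < n - x), p x * p (n - x)))
      + ∑ n ∈ Rep, Real.exp (Real.exp 1 *
          ∑ x ∈ (range n).filter (fun x => x < n - x), p x * p (n - x)) / Real.exp 1 ^ s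
      + ∑ j ∈ fam, Real.exp (A j * ∑ x ∈ Y j, p x) / A j ^ y j < 1) :
    ∃ R ⊆ X, (∀ x ∈ X, p x = 1 → x ∈ R) ∧ (∀ n ∈ Cov, ∃ x ∈ R, ∃ z ∈ R, x + z = n) ∧
      (∀ n ∈ Rep, repF R n ≤ 2 * s) ∧ ∀ j ∈ fam, (R ∩ Y j).card < y j := by
  sorry

/-- FB-A3a -/
theorem pairs_dens_le (L n : ℕ) :
    ∑ x ∈ (range n).filter (fun x => x < n - x), dens L x * dens L (n - x) ≤ 32 * L := by
  sorry

/-- FB-A3b -/
theorem le_pairs_dens {b L n : ℕ} (hL : 100 ≤ L) (hb : 4 * b ≤ n) (hn : 16 * L < n + 1) :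
    4 * (L : ℝ) - 2 ≤ ∑ x ∈ (range n).filter (fun x => x < n - x),
      (if b ≤ x then dens L x else 0) * (if b ≤ n - x then dens L (n - x) else 0) := by
  sorry

/-- FB-A3c -/
theorem window_dens_le (L y h : ℕ) :
    ∑ x ∈ Ico y (y + h), dens L x ≤ 4 * √L * h / 2 ^ (Nat.log 2 y / 2) := by
  sorry

/-- FB-A3d -/
theorem card_dens_le (L z : ℕ) (Z : Finset ℕ) (hZ : ∀ x ∈ Z, 2 ^ z ≤ x) :
    ∑ x ∈ Z, dens L x ≤ Z.card * √(16 * L / 2 ^ z) := by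
  sorry

/-- FB-A3e (`m` is a modulus, `x ≥ m`) -/
theorem class_dens_le (L m r : ℕ) (hm : 0 < m) :
    ∑ x ∈ (range (2 ^ L)).filter (fun x => m ≤ x ∧ x % m = r), dens L x ≤
      8 * √(L * 2 ^ L) / m := by
  sorry

/-- FB-A4 (the general random set). Uses A2, A3a, A3b, A3c. -/
theorem filler_core (b L : ℕ) (hL : 100 ≤ L) {J : Type} (fam : Finset J) (Y : J → Finset ℕ)
    (A : J → ℝ) (y : J → ℕ) (hA : ∀ j ∈ fam, 1 ≤ A j)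
    (hsum : ∑ j ∈ fam, Real.exp (A j * ∑ x ∈ (Y j).filter (fun x => b ≤ x ∧ x < 2 ^ L),
      dens L x) / A j ^ y j < 1 / 2) :
    ∃ R : Finset ℕ, (∀ x ∈ R, b ≤ x ∧ x < 2 ^ L) ∧
      (∀ n, 4 * b ≤ n → n < 2 ^ L → ∃ x ∈ R, ∃ z ∈ R, x + z = n) ∧
      (∀ n, repF R n ≤ 201 * L) ∧ WinLe R (16 * L) ∧ ∀ j ∈ fam, (R ∩ Y j).card < y j := by
  sorry

/-- FB-A5 (start of the levels; from A4 with an empty family). -/
theorem top_base (J : ℕ) (hJ : 100 ≤ J) :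
    ∃ T, Top J (Cs * (J + 1)) (Cs * (J + 1)) (Nat.log 2 (16 * J) + 1) T T ∅ := by
  sorry

/-- FB-A6 (start of a tower; from A4). -/
theorem fi_zero {a u e t κ w : ℕ → ℕ} (h : FTow a u e t κ w) (q : ℕ → ℕ)
    (hq : ∀ i, (q i).Prime ∧ 2 ^ (a i) < q i ∧ q i ≤ 2 ^ (a i + 1)) :
    ∃ O, FI a u e κ q 0 O := by
  sorry

/-- FB-A7a -/
theorem mean_O {a u e t κ w : ℕ → ℕ} (h : FTow a u e t κ w) (k n : ℕ) (O : Finset ℕ)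
    (hO : ∀ o ∈ O, o < 2 ^ (4 * a k + 8 * u k)) (hr : ∀ n, repF O n ≤ 4 * Cs * a k) :
    ∑ x ∈ (range (2 ^ LR a u e k)).filter (fun x => 2 ^ zR a u k ≤ x ∧ x ≤ n ∧ n - x ∈ O),
      dens (LR a u e k) x ≤ 2 ^ 49 * a k := by
  sorry

/-- FB-A7b -/
theorem mean_W {a u e t κ w : ℕ → ℕ} (h : FTow a u e t κ w) (k n : ℕ) (W : Finset ℕ)
    (hmid : ∀ y h', 2 ^ (4 * a k + 4) ≤ h' → h' ≤ 2 ^ (4 * a k + thT u e k + 13) →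
      (win W y h').card ^ 2 * 2 ^ (4 * a k + thT u e k) ≤ 2 ^ 57 * h' ^ 2 * Fs u k) :
    ∑ x ∈ (range (2 ^ LR a u e k)).filter (fun x => 2 ^ zR a u k ≤ x ∧ x ≤ n ∧ n - x ∈ W),
      dens (LR a u e k) x ≤ 2 ^ 54 * a k := by
  sorry

/-- FB-A7c -/
theorem mean_far {a u e t κ w : ℕ → ℕ} (h : FTow a u e t κ w) (k n : ℕ) (W : Finset ℕ)
    (hn : 2 ^ (4 * a k + thT u e k + 128 * e k) ≤ n)
    (hfar : ∀ y, 2 ^ (4 * a k + thT u e k + 127 * e k) ≤ y →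
      (win W y (2 ^ (4 * a k + thT u e k + 12))).card ≤ 2 ^ (2 * a k + 4 * u k - 10 * e k)) :
    ∑ x ∈ (range (2 ^ LR a u e k)).filter (fun x => 2 ^ zR a u k ≤ x ∧ x ≤ n ∧ n - x ∈ W),
      dens (LR a u e k) x ≤ 1 / 2 ^ (8 * e k) := by
  sorry

/-- FB-A8 (the filler of a gap). Uses A4, A7, A3e. -/
theorem filler_stage {a u e t κ w : ℕ → ℕ} (h : FTow a u e t κ w) (k : ℕ) (q : ℕ → ℕ)
    (hq : ∀ i, (q i).Prime ∧ 2 ^ (a i) < q i ∧ q i ≤ 2 ^ (a i + 1)) (O W : Finset ℕ)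
    (hO : ∀ o ∈ O, o < 2 ^ (4 * a k + 8 * u k)) (hr : ∀ n, repF O n ≤ 4 * Cs * a k)
    (hWr : ∀ x ∈ W, x < 2 ^ (4 * a (k + 1) + 8 * u (k + 1)))
    (hmid : ∀ y h', 2 ^ (4 * a k + 4) ≤ h' → h' ≤ 2 ^ (4 * a k + thT u e k + 13) →
      (win W y h').card ^ 2 * 2 ^ (4 * a k + thT u e k) ≤ 2 ^ 57 * h' ^ 2 * Fs u k)
    (hfar : ∀ y, 2 ^ (4 * a k + thT u e k + 127 * e k) ≤ y →
      (win W y (2 ^ (4 * a k + thT u e k + 12))).card ≤ 2 ^ (2 * a k + 4 * u k - 10 * e k)) :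
    ∃ R, FR a u e t κ q k O W R := by
  sorry

end random

section world

/-- FB-B1 (choice of `τ`, with strips). Adapt Helper67/WR/B1.lean; uses Helper52.WR.tau_exists. -/
theorem tau_select2 {q : ℕ} [Fact q.Prime] (Γ : Finset (ZMod q × ZMod q)) (hΓ : Γ.card ≤ 3 * q)
    (T O : Finset ℕ) (S : ℕ) (hS : 0 < S) (H x : ℕ) (Mod : Finset ℕ)
    (hMod : ∀ m ∈ Mod, 0 < m ∧ Nat.Coprime q m)
    (hO : ∀ r, (O.filter (fun o => o % q ^ 2 = r)).card ≤ H)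
    (hx : (2 * (q : ℝ) ^ 4 + ∑ m ∈ Mod, (m : ℝ)) * 2 ^ 13 < 2 ^ x) :
    ∃ τ : ZMod q × ZMod q → ZMod q × ZMod q,
      (∀ ν : ℕ, (((Γ ×ˢ Γ) ×ˢ O).filter (fun y =>
        (und y.1.1 (y.1.2 + τ y.1.1) + y.2) % q ^ 4 = ν % q ^ 4)).card ≤ x * H) ∧
      (∀ m ∈ Mod, ∀ r : ℕ, ((((Γ ×ˢ Γ) ×ˢ ((range S) ×ˢ T)).filter (fun y =>
        (und y.1.1 (y.1.2 + τ y.1.1) + q ^ 4 * (S + y.2.1 + y.2.2)) % m = r % m)).card : ℝ)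
          ≤ x * (T.card * ((q : ℝ) ^ 2 * S / m + 1))) ∧
      ∀ c m : ℕ, 1 ≤ m → ((Γ ×ˢ Γ).filter (fun p =>
        c ≤ (p.2 + τ p.1).2.val + (p.2 + τ p.1).1.val * q ∧
          (p.2 + τ p.1).2.val + (p.2 + τ p.1).1.val * q < c + m)).card ≤ x * m := by
  sorry

/-- FB-B2 (choice of `σ`, with the multiplicity of every value). Adapt Helper96/WR/B2.lean. -/
theorem sigma_select2 {q : ℕ} [Fact q.Prime] (Γ : Finset (ZMod q × ZMod q))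
    (hΓ : Γ.card ≤ 3 * q) (T O : Finset ℕ) (S : ℕ) (hS : 0 < S) (x H W N t0 yS : ℕ)
    (Mod : Finset ℕ)
    (hMod : ∀ m ∈ Mod, 0 < m) (τ : ZMod q × ZMod q → ZMod q × ZMod q)
    (hW : ∀ a : ℕ, (T.filter (fun t => a ≤ t ∧ t < a + S)).card ≤ W)
    (hQ : ∀ ν : ℕ, (((Γ ×ˢ Γ) ×ˢ O).filter (fun y =>
        (und y.1.1 (y.1.2 + τ y.1.1) + y.2) % q ^ 4 = ν % q ^ 4)).card ≤ x * H)
    (hM : ∀ m ∈ Mod, ∀ r : ℕ, ((((Γ ×ˢ Γ) ×ˢ ((range S) ×ˢ T)).filter (fun y =>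
        (und y.1.1 (y.1.2 + τ y.1.1) + q ^ 4 * (S + y.2.1 + y.2.2)) % m = r % m)).card : ℝ)
          ≤ x * (T.card * ((q : ℝ) ^ 2 * S / m + 1)))
    (AX : ℝ) (hAX : 1 ≤ AX)
    (hX : (N : ℝ) * 4096 * (Real.exp (AX * ((x : ℝ) * H * W / S)) / AX ^ t0) < 1 / 4)
    (AM : ℕ → ℝ) (hAM : ∀ m ∈ Mod, 1 ≤ AM m) (y : ℕ → ℕ)
    (hY : ∑ m ∈ Mod, (m : ℝ) * (Real.exp (AM m *
      ((x : ℝ) * (T.card * ((q : ℝ) ^ 2 / m + 1 / S)))) / AM m ^ y m) < 1 / 2)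
    (AS : ℝ) (hAS : 1 ≤ AS)
    (hSS : (S : ℝ) * (Real.exp (AS * (9 * (q : ℝ) ^ 2 / S)) / AS ^ yS) < 1 / 4) :
    ∃ σ : (ZMod q × ZMod q) × (ZMod q × ZMod q) → ℕ, (∀ p, σ p < S) ∧
      (∀ n < N, ∀ ε : Lab, ((Γ ×ˢ Γ).filter (fun p => ∃ o ∈ O, ∃ t ∈ T,
        elt S τ σ p ε t + o = n)).card < t0) ∧
      (∀ m ∈ Mod, ∀ r : ℕ, ((Γ ×ˢ Γ).filter (fun p => ∃ t ∈ T,
        (und p.1 (p.2 + τ p.1) + q ^ 4 * (S + σ p + t)) % m = r % m)).card < y m) ∧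
      ∀ s, ((Γ ×ˢ Γ).filter (fun p => σ p = s)).card ≤ yS := by
  sorry

/-- FB-B3 (sums inside a world, pointwise). Adapt Helper23/WR/C1.lean. -/
theorem world_self2 {q : ℕ} [Fact q.Prime] {Γ : Finset (ZMod q × ZMod q)} (hΓ : GoodSet Γ)
    (T : Finset ℕ) (S f : ℕ) (τ : ZMod q × ZMod q → ZMod q × ZMod q)
    (σ : (ZMod q × ZMod q) × (ZMod q × ZMod q) → ℕ) (hσ : ∀ p, σ p < S) (n : ℕ)
    (hf : ∀ m, n / q ^ 4 ≤ m + 1028 + 4 * S → m ≤ n / q ^ 4 → repF T m ≤ f) :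
    repF (World Γ T S τ σ) n ≤ 4096 ^ 2 * 2592 * f := by
  sorry

/-- FB-B4 (short windows of a world). -/
theorem world_win_small {q : ℕ} [Fact q.Prime] (Γ : Finset (ZMod q × ZMod q)) (T : Finset ℕ)
    (S x : ℕ) (τ : ZMod q × ZMod q → ZMod q × ZMod q)
    (σ : (ZMod q × ZMod q) × (ZMod q × ZMod q) → ℕ)
    (hs : ∀ c m : ℕ, 1 ≤ m → ((Γ ×ˢ Γ).filter (fun p =>
        c ≤ (p.2 + τ p.1).2.val + (p.2 + τ p.1).1.val * q ∧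
          (p.2 + τ p.1).2.val + (p.2 + τ p.1).1.val * q < c + m)).card ≤ x * m)
    (y h : ℕ) (hh : h ≤ q ^ 4) :
    (win (World Γ T S τ σ) y h).card ≤ 4096 * (2 * (x * (h / q ^ 2 + 2))) := by
  sorry

/-- FB-B5 (size of a world). -/
theorem world_card {q : ℕ} [Fact q.Prime] (Γ : Finset (ZMod q × ZMod q)) (hΓ : Γ.card ≤ 3 * q)
    (T : Finset ℕ) (S : ℕ) (τ : ZMod q × ZMod q → ZMod q × ZMod q)
    (σ : (ZMod q × ZMod q) × (ZMod q × ZMod q) → ℕ) :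
    (World Γ T S τ σ).card ≤ 4096 * (9 * q ^ 2 * T.card) := by
  sorry

/-- FB-B6 (windows of a world, using the multiplicities of the values of `σ`). -/
theorem world_win_mid {q : ℕ} [Fact q.Prime] (Γ : Finset (ZMod q × ZMod q)) (T : Finset ℕ)
    (S yS W : ℕ) (τ : ZMod q × ZMod q → ZMod q × ZMod q)
    (σ : (ZMod q × ZMod q) × (ZMod q × ZMod q) → ℕ) (hσ : ∀ p, σ p < S)
    (hy : ∀ s, ((Γ ×ˢ Γ).filter (fun p => σ p = s)).card ≤ yS) (y h : ℕ)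
    (hW : ∀ z, (win T z S).card ≤ W) :
    (win (World Γ T S τ σ) y h).card ≤ 4096 * ((h / q ^ 4 + 2) * yS * W) := by
  sorry

/-- FB-B7 (windows of a world, from windows of `T`). -/
theorem world_win_far {q : ℕ} [Fact q.Prime] (Γ : Finset (ZMod q × ZMod q))
    (hΓ : Γ.card ≤ 3 * q) (T : Finset ℕ) (S W : ℕ)
    (τ : ZMod q × ZMod q → ZMod q × ZMod q)
    (σ : (ZMod q × ZMod q) × (ZMod q × ZMod q) → ℕ) (hσ : ∀ p, σ p < S) (y h : ℕ)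
    (hW : ∀ z, y / q ^ 4 ≤ z + 514 + 2 * S → (win T z (h / q ^ 4 + 2)).card ≤ W) :
    (win (World Γ T S τ σ) y h).card ≤ 4096 * (9 * q ^ 2 * W) := by
  sorry

/-- FB-B8 (one world, numerical hypotheses). Adapt Helper53/WR/Exists.lean. -/
theorem world_exists2 {q : ℕ} [Fact q.Prime] (hq : 16 < q) (T T' O : Finset ℕ) (hTT : T' ⊆ T)
    (S Y H D W F f x N t0 yS : ℕ) (hS : 0 < S) (Mod : Finset ℕ)
    (hMod : ∀ m ∈ Mod, 0 < m ∧ Nat.Coprime q m) (hTm : ∀ m ∈ Mod, ∀ t ∈ T, t < m)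
    (hTY : ∀ t ∈ T, t < Y) (hF : ∀ n, repF T n ≤ F) (hf : ∀ n, repF T' n ≤ f)
    (hW : 2 * S * F ≤ W ^ 2)
    (hO : ∀ r, (O.filter (fun o => o % q ^ 2 = r)).card ≤ H)
    (hD : ∀ r, (O.filter (fun o => o % q ^ 4 = r)).card ≤ D)
    (hx : (2 * (q : ℝ) ^ 4 + ∑ m ∈ Mod, (m : ℝ)) * 2 ^ 13 < 2 ^ x)
    (AX : ℝ) (hAX : 1 ≤ AX)
    (hX : (N : ℝ) * 4096 * (Real.exp (AX * ((x : ℝ) * H * W / S)) / AX ^ t0) < 1 / 4)
    (AM : ℕ → ℝ) (hAM : ∀ m ∈ Mod, 1 ≤ AM m) (y : ℕ → ℕ)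
    (hY : ∑ m ∈ Mod, (m : ℝ) * (Real.exp (AM m *
      ((x : ℝ) * (T.card * ((q : ℝ) ^ 2 / m + 1 / S)))) / AM m ^ y m) < 1 / 2)
    (AS : ℝ) (hAS : 1 ≤ AS)
    (hSS : (S : ℝ) * (Real.exp (AS * (9 * (q : ℝ) ^ 2 / S)) / AS ^ yS) < 1 / 4) :
    ∃ A A' : Finset ℕ, A' ⊆ A ∧ (∀ b ∈ A, q ^ 4 * S ≤ b ∧ b < q ^ 4 * (514 + 2 * S + Y)) ∧
      (∀ n, repF A' n ≤ 4096 ^ 2 * 2592 * f) ∧
      (∀ n g, (∀ m, n / q ^ 4 ≤ m + 1028 + 4 * S → m ≤ n / q ^ 4 → repF T m ≤ g) →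
        repF A n ≤ 4096 ^ 2 * 2592 * g) ∧
      (∀ n, 4 + 4 * S ≤ n / q ^ 4 →
        (∀ m : ℕ, n / q ^ 4 ≤ m + 4 + 4 * S → m ≤ n / q ^ 4 → ∃ t ∈ T, ∃ t' ∈ T, t + t' = m) →
        ∃ a ∈ A, ∃ b ∈ A, a + b = n) ∧
      (∀ n, 4 + 4 * S ≤ n / q ^ 4 →
        (∀ m : ℕ, n / q ^ 4 ≤ m + 4 + 4 * S → m ≤ n / q ^ 4 → ∃ t ∈ T', ∃ t' ∈ T', t + t' = m) →
        ∃ a ∈ A', ∃ b ∈ A', a + b = n) ∧
      (∀ m ∈ Mod, ∀ r, (A.filter (fun b => b % m = r)).card ≤ 4096 * y m) ∧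
      (∀ n < N, (crossF A O n).card ≤ 4096 * (t0 * D)) ∧
      (∀ y h, h ≤ q ^ 4 → (win A y h).card ≤ 4096 * (2 * (x * (h / q ^ 2 + 2)))) ∧
      A.card ≤ 4096 * (9 * q ^ 2 * T.card) ∧
      (∀ y h W, (∀ z, (win T z S).card ≤ W) →
        (win A y h).card ≤ 4096 * ((h / q ^ 4 + 2) * yS * W)) ∧
      (∀ y h W, (∀ z, y / q ^ 4 ≤ z + 514 + 2 * S → (win T z (h / q ^ 4 + 2)).card ≤ W) →
        (win A y h).card ≤ 4096 * (9 * q ^ 2 * W)) := by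
  sorry

/-- FB-B9a (numerics of the windows: all). `q` between `2 ^ a` and `2 ^ (a + 1)`. -/
theorem wn_of {a u u' e c q : ℕ} (A : Finset ℕ) (e300 : 300 ≤ e) (eu : 100 * e ≤ u)
    (uu' : u ≤ u') (h20 : 20 * a ≤ 2 ^ e) (hq1 : 2 ^ a < q) (hq2 : q ≤ 2 ^ (a + 1))
    (hA : ∀ b ∈ A, b < 2 ^ (4 * (a + u) + 8 * u'))
    (hc : c ≤ 2 ^ (2 * u + 4 * u' + e - 2)) (hcard : A.card ≤ 4096 * (9 * q ^ 2 * c))
    (hs : ∀ y h, h ≤ q ^ 4 → (win A y h).card ≤ 4096 * (2 * (20 * a * (h / q ^ 2 + 2)))) :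
    WinLe A (2 ^ (13 * u')) := by
  sorry

/-- FB-B9b (numerics of the windows: middle range). -/
theorem mid_of {a th F q : ℕ} (T A : Finset ℕ) (hF : ∀ n, repF T n ≤ F) (hth : th ≤ 2 * a)
    (hq1 : 2 ^ a < q)
    (hm : ∀ y h W, (∀ z, (win T z (2 ^ th)).card ≤ W) →
        (win A y h).card ≤ 4096 * ((h / q ^ 4 + 2) * 2 ^ (2 * a - th + 7) * W))
    (y h : ℕ) (h1 : 2 ^ (4 * a + 4) ≤ h) (h2 : h ≤ 2 ^ (4 * a + th + 13)) :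
    (win A y h).card ^ 2 * 2 ^ (4 * a + th) ≤ 2 ^ 57 * h ^ 2 * F := by
  sorry

/-- FB-B9c (numerics of the windows: far above the gap). -/
theorem far_of {a u e w q : ℕ} (T A : Finset ℕ) (hw : w ≤ 20 * e) (e300 : 300 ≤ e)
    (eu : 100 * e ≤ u) (ua : 100 * u ≤ a) (hT : WinLe T (2 ^ w))
    (hq1 : 2 ^ a < q) (hq2 : q ≤ 2 ^ (a + 1))
    (hm : ∀ y h W, (∀ z, y / q ^ 4 ≤ z + 514 + 2 * 2 ^ (8 * u + 64 * e) →
        (win T z (h / q ^ 4 + 2)).card ≤ W) → (win A y h).card ≤ 4096 * (9 * q ^ 2 * W))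
    (y : ℕ) (hy : 2 ^ (4 * a + (8 * u + 64 * e) + 127 * e) ≤ y) :
    (win A y (2 ^ (4 * a + (8 * u + 64 * e) + 12))).card ≤ 2 ^ (2 * a + 4 * u - 10 * e) := by
  sorry

/-- FB-B10 (one world of a tower). Adapt Helper53/WR/TowWorld.lean; uses B8, B9. -/
theorem ftower_world {a u e t κ w f : ℕ → ℕ} (h : FTow a u e t κ w) (k : ℕ) (q : ℕ → ℕ)
    (hq : ∀ i, (q i).Prime ∧ 2 ^ (a i) < q i ∧ q i ≤ 2 ^ (a i + 1)) (T T' B O : Finset ℕ)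
    (hT : Top (laT u k) (Fs u k) (f k) (w k) T T' B) (hO : FI a u e κ q k O) :
    ∃ A A', FW a u e t κ f q B k O A A' := by
  sorry

end world

section tower

/-- FB-C1 (one stage). -/
theorem fi_step {a u e t κ w f : ℕ → ℕ} (h : FTow a u e t κ w) (k : ℕ) (q : ℕ → ℕ)
    (hq : ∀ i, (q i).Prime ∧ 2 ^ (a i) < q i ∧ q i ≤ 2 ^ (a i + 1)) (B O A A' R : Finset ℕ)
    (hO : FI a u e κ q k O) (hA : FW a u e t κ f q B k O A A') (hR : FR a u e t κ q k O A R) :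
    FI a u e κ q (k + 1) (O ∪ A ∪ R) := by
  sorry

/-- FB-C2 (all stages; uses A6, A8, B10, C1). `S' 0` is empty. -/
theorem ftower_pieces {a u e t κ w f : ℕ → ℕ} (h : FTow a u e t κ w) (T T' B : ℕ → Finset ℕ)
    (hT : ∀ k, Top (laT u k) (Fs u k) (f k) (w k) (T k) (T' k) (B k)) :
    ∃ (q : ℕ → ℕ) (S S' A A' R : ℕ → Finset ℕ),
      (∀ i, (q i).Prime ∧ 2 ^ (a i) < q i ∧ q i ≤ 2 ^ (a i + 1)) ∧ S' 0 = ∅ ∧
      (∀ k, S (k + 1) = S k ∪ A k ∪ R k) ∧ (∀ k, S' (k + 1) = S' k ∪ A' k) ∧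
      (∀ k, FI a u e κ q k (S k)) ∧ (∀ k, FW a u e t κ f q (B k) k (S k) (A k) (A' k)) ∧
      (∀ k, FR a u e t κ q k (S k) (A k) (R k)) := by
  sorry

/-- FB-C3 (the union of all stages; uses C2). -/
theorem ftower {a u e t κ w f : ℕ → ℕ} (h : FTow a u e t κ w) (T T' B : ℕ → Finset ℕ)
    (hT : ∀ k, Top (laT u k) (Fs u k) (f k) (w k) (T k) (T' k) (B k)) :
    ∃ A' A : Set ℕ, A' ⊆ A ∧ (∀ n, ∃ x ∈ A, ∃ y ∈ A, x + y = n) ∧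
      (∀ k n, n < 2 ^ zR a u k → rep A n ≤ 4 * Cs * a k) ∧
      (∀ n, n < 2 ^ (4 * a 0 + thT u e 0) → rep A' n = 0) ∧
      (∀ k n, 2 ^ (4 * a k + thT u e k) ≤ n → n < 2 ^ (4 * a (k + 1) + thT u e (k + 1)) →
        rep A' n ≤ 4096 ^ 2 * 2592 * f k + 2 * (4096 * (t k * Dk κ k))) ∧
      (∀ k j, 4 * a k + thT u e k + 128 * e k ≤ j → j + 1 ≤ zR a u (k + 1) →
        (∀ i, i ≤ 5 → j - 4 * a k - i ∉ B k) → CovBlock A' j ∧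
          ∀ n, 2 ^ j ≤ n → n < 2 ^ (j + 1) →
            rep A n ≤ 4096 ^ 2 * 2592 * f k + 2 * (4096 * (t k * Dk κ k)) + 2 * t k) ∧
      (∀ k J, J ≤ zR a u (k + 1) →
        WinLe (Pool.Agent.Helper48.WR.cut A J) ((k + 2) * (2 * 2 ^ (13 * u (k + 1))))) := by
  sorry

end tower

section levels

/-- FB-D1 (finite theorem; uses A5, C3). -/
theorem finite_thm2 : ∃ c s0 : ℕ, ∀ s, s0 ≤ s → ∀ J : ℕ, 100 ≤ J → 14 * Nat.log 2 J ≤ s ^ 2 →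
    ∃ T T' B : Finset ℕ, Top J (Cs * (J + 1)) (2 ^ (c * s)) (J / 2 ^ (s + 2) + c * s) T T' B ∧
      B.card * 2 ^ (s / 2) ≤ 2 ^ c * J ∧ ∀ j ∈ B, j < J := by
  sorry

/-- FB-D2 (infinite theorem; uses C3, D1). -/
theorem infinite_thm2 : ∃ (A' A : Set ℕ) (C c : ℝ), 0 < c ∧ A' ⊆ A ∧
    (∀ n, ∃ x ∈ A, ∃ y ∈ A, x + y = n) ∧
    (∀ l n : ℕ, 1 ≤ l → n < 2 ^ l → (rep A n : ℝ) ≤ C * l) ∧
    (∀ l n : ℕ, 2 ≤ l → n < 2 ^ l → (rep A' n : ℝ) ≤ Real.exp (C * √(Real.log l))) ∧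
    ∃ Bad : Set ℕ, (∀ j, j ∉ Bad → CovBlock A' j ∧ ∀ n, 2 ^ j ≤ n → n < 2 ^ (j + 1) →
        (rep A n : ℝ) ≤ Real.exp (C * √(Real.log j))) ∧
      ∀ᶠ J : ℕ in atTop, ((Bad ∩ Set.Iio J).ncard : ℝ) ≤ J * Real.exp (-(c * √(Real.log J))) := by
  sorry

end levels

end Pool.Agent.Helper48.FB.St
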